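import Pool.Agent.MWLE.StmtsA

/-!
# Row RIG of the table mwle
-/

namespace Pool.Agent.MWLE.H80

open Pool.Agent.Helper14_MV Pool.Agent.Helper2_MV
open Pool.Agent.MWK (pre Gw)
open Pool.Agent.MWF (Ap gaml dbl)
open Pool.Agent.MWGN (nn Gz E0 P0 A0 Tau gh)

theorem rig (hDDC : DdcStmt) (hLER : LerStmt) : RigStmt := by
  intro β hG m τ hτ hB x S L C hnd Q A v R hv1 hv2 hv3 hV
  have tr : ∀ {a b c : List ℕ}, RR β a b → RR β b c → RR β a c := fun h1 h2 => β.trans h1 h2
  have sq : ∀ B : List ℕ, RR β (x :: x :: B) (x :: x :: x :: B) := by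
    intro B
    have h := (RR.sub (fun _ => [x]) hG.gw.ap.sq).append (RR.refl (β := β) B)
    simpa using h
  have h1 : RR β (dbl A ++ x :: (dq Q v ++ x :: R)) (x :: x :: (dbl A ++ (dq Q v ++ x :: R))) := by
    have h2 := hB Q (dbl A) v R x hv1 hv2 hv3
    have h3 := (hDDC β hG A [x] [] (dq Q v ++ x :: R)).1
    simp only [List.nil_append, List.cons_append] at h3
    exact tr h2 h3
  have cns : ∀ {a b : List ℕ}, RR β a b → RR β (x :: x :: a) (x :: x :: b) := by
    intro a b h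
    exact (RR.refl (β := β) [x, x]).append h
  have h4 : RR β (x :: x :: (dbl A ++ x :: (dq Q v ++ x :: R)))
      (dbl A ++ x :: (dq Q v ++ x :: R)) := by
    refine tr (cns h1) ?_
    refine tr ?_ (RR.symm h1)
    refine tr (RR.symm (sq (x :: (dbl A ++ (dq Q v ++ x :: R))))) ?_
    exact RR.symm (sq _)
  have h5 : RR β (x :: (lw4 L C (m + 1) ++ (x :: tll S L τ)))
      (x :: x :: x :: (lw4 L C (m + 1) ++ (x :: tll S L τ))) :=
    tr (RR.symm hV) (tr (RR.symm h4) (cns hV))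
  exact hLER β hG m τ hτ x S L C hnd (tr h5 (RR.symm (sq _)))

end Pool.Agent.MWLE.H80
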